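import Pool.Agent.H97.PRP.Targets2
import Pool.Agent.H45.NF.PA
import Pool.Agent.H45.NF.CL
import Pool.Agent.H45.NF.DW

/-!
# MP_e37c09_lc, row CPA2 of prp_modules: capturing subsets in the first case
-/

open Ordinal Cardinal Order Set
open scoped ZFSet

universe u

namespace Pool.Agent.H5.PRP

open _root_.HD HD.PRK HD.PRP

/-- the unique value of `R` at `x1` is `X1` -/
private def Val1 (R x1 X1 : ZFSet.{u}) : Prop := ∀ z, ZFSet.pair x1 z ∈ R ↔ z = X1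

/-- `Y` is the part below the union of `w` of the value of `R` at an element of `Z` -/
private def Pr (Z R w Y : ZFSet.{u}) : Prop := ∃ x1, x1 ∈ Z ∧ ∃ X1, Val1 R x1 X1 ∧
  ∀ t, t ∈ Y ↔ t ∈ X1 ∧ ∃ b, b ∈ w ∧ t ∈ b

private theorem pr_dz {Z R : ZFSet.{u}} (hZ : OD Z) (hR : OD R) :
    DZ.{u} fun v => ∃ w Y, v 0 = ZFSet.pair w Y ∧ Pr Z R w Y := by
  refine DZ.ex (R := fun w v => ∃ Y, v 0 = ZFSet.pair w Y ∧ Pr Z R w Y) ?_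
  refine DZ.ex (R := fun Y v => v 1 = ZFSet.pair (v 0) Y ∧ Pr Z R (v 0) Y) ?_
  refine (loc_pair 2 1 0).dz.and ?_
  refine DZ.ex (R := fun x1 v => x1 ∈ Z ∧ ∃ X1, Val1 R x1 X1 ∧
    ∀ t, t ∈ v 0 ↔ t ∈ X1 ∧ ∃ b, b ∈ v 1 ∧ t ∈ b) ?_
  refine DZ.and (DZ.od (R := fun b v => v 0 ∈ b) hZ (DZ.mem 1 0)) ?_
  refine DZ.ex (R := fun X1 v => Val1 R (v 0) X1 ∧
    ∀ t, t ∈ v 1 ↔ t ∈ X1 ∧ ∃ b, b ∈ v 2 ∧ t ∈ b) ?_
  refine DZ.and ?_ ?_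
  · refine DZ.all (R := fun z v => ZFSet.pair (v 1) z ∈ R ↔ z = v 0) ?_
    exact (DZ.od (R := fun r v => ZFSet.pair (v 2) (v 0) ∈ r) hR (loc_pmem 3 1 0).dz).iff
      (DZ.eq 0 1)
  · refine DZ.all (R := fun t v => t ∈ v 2 ↔ t ∈ v 0 ∧ ∃ b, b ∈ v 3 ∧ t ∈ b) ?_
    refine (DZ.mem 0 3).iff ((DZ.mem 0 1).and ?_)
    exact DZ.ex (R := fun b v => b ∈ v 4 ∧ v 0 ∈ b) ((DZ.mem 0 5).and (DZ.mem 1 0))

theorem pf_CPA2 (h0 : T_EQA.{u}) : T_CPA2.{u} := by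
  classical
  intro δ hδ hA κ x hx hfew X hX hXp
  obtain ⟨Z, hZ, hxZ, ν, hν, e0, he0⟩ := h0 δ hδ hA κ x hx hfew
  obtain ⟨R, hR, hRX⟩ := (Pool.Agent.H45.NF.pf_pa x X).1 hXp
  have hpow : OD (ZFSet.powerset κ.toZFSet) := Pool.Agent.H45.NF.od_powerset (OD.ordinal κ)
  have hprod : OD (ZFSet.prod (ZFSet.powerset κ.toZFSet) (ZFSet.powerset κ.toZFSet)) :=
    OD.of_dz (DZ.od (R := fun b v => v 0 = ZFSet.prod b b) hpow (loc_prod 1 0 0).dz)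
  have hmem : ∀ w Y : ZFSet.{u}, ZFSet.pair w Y ∈ ZFSet.sep
      (fun z => ∃ w Y, z = ZFSet.pair w Y ∧ Pr Z R w Y)
      (ZFSet.prod (ZFSet.powerset κ.toZFSet) (ZFSet.powerset κ.toZFSet)) ↔
      (w ⊆ κ.toZFSet ∧ Y ⊆ κ.toZFSet) ∧ Pr Z R w Y := by
    intro w Y
    rw [ZFSet.mem_sep, ZFSet.pair_mem_prod, ZFSet.mem_powerset, ZFSet.mem_powerset]
    refine and_congr Iff.rfl ⟨?_, fun h => ⟨w, Y, rfl, h⟩⟩
    rintro ⟨w', Y', he, h⟩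
    obtain ⟨rfl, rfl⟩ := ZFSet.pair_injective he
    exact h
  refine ⟨ZFSet.sep (fun z => ∃ w Y, z = ZFSet.pair w Y ∧ Pr Z R w Y)
    (ZFSet.prod (ZFSet.powerset κ.toZFSet) (ZFSet.powerset κ.toZFSet)),
    Pool.Agent.H45.NF.od_sep hprod (pr_dz hZ hR), ?_, ?_⟩
  · intro w
    refine ⟨ν, hν, fun i => if h : ∃ X1, Val1 R (e0 i) X1 then h.choose ∩ ZFSet.sUnion w else ∅,
      fun Y hY => ?_⟩
    obtain ⟨-, x1, hx1, X1, h1, h2⟩ := (hmem w Y).1 hY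
    obtain ⟨i, hi, rfl⟩ := he0 x1 hx1
    refine ⟨i, hi, ?_⟩
    have hex : ∃ X1, Val1 R (e0 i) X1 := ⟨X1, h1⟩
    change Y = (if h : ∃ X1, Val1 R (e0 i) X1 then h.choose ∩ ZFSet.sUnion w else ∅)
    rw [dif_pos hex]
    have h3 : hex.choose = X1 := (h1 _).1 ((hex.choose_spec _).2 rfl)
    rw [h3]
    ext t
    rw [h2, ZFSet.mem_inter, ZFSet.mem_sUnion]
  · intro a ha
    refine (hmem _ _).2 ⟨⟨fun z hz => hx (ZFSet.mem_inter.1 hz).1,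
      fun z hz => hX (ZFSet.mem_inter.1 hz).1⟩, x, hxZ, X, hRX, fun t => ?_⟩
    rw [ZFSet.mem_inter]
    refine and_congr Iff.rfl ⟨fun h => ⟨a.toZFSet, ZFSet.mem_inter.2 ⟨ha,
      toZFSet_mem_toZFSet_iff.2 (lt_succ a)⟩, h⟩, ?_⟩
    rintro ⟨b, hb, htb⟩
    obtain ⟨c, hc, rfl⟩ := mem_toZFSet_iff.1 (ZFSet.mem_inter.1 hb).2
    obtain ⟨d, hd, rfl⟩ := mem_toZFSet_iff.1 htb
    exact toZFSet_mem_toZFSet_iff.2 (hd.trans_le (lt_succ_iff.1 hc))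

end Pool.Agent.H5.PRP
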